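import Pool.Agent.Helper50.HY.Stmts
import Pool.Agent.Helper22.LN.EB

/-!
# Row EBH: the trial state of separated hydrogen atoms
-/

set_option autoImplicit false

namespace Pool.Agent.Helper22.HY

open MeasureTheory Filter Pool.Agent.Helper95.PW Pool.Agent.Helper95.LN Pool.Agent.Helper50.HY
open Pool.Agent.Helper22.LN

theorem nr_sq (y : R3) : nr y ^ 2 = y 0 ^ 2 + y 1 ^ 2 + y 2 ^ 2 :=
  Real.sq_sqrt (by positivity)

theorem nr_cont : Continuous nr := by
  unfold nr
  fun_prop

theorem comp_le_nr (y : R3) (i : Fin 3) : |y i| ≤ nr y := by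
  unfold nr
  apply Real.abs_le_sqrt
  fin_cases i
  · simp only [Fin.zero_eta]
    nlinarith [sq_nonneg (y 1), sq_nonneg (y 2)]
  · simp only [Fin.mk_one]
    nlinarith [sq_nonneg (y 0), sq_nonneg (y 2)]
  · simp only [Fin.reduceFinMk]
    nlinarith [sq_nonneg (y 0), sq_nonneg (y 1)]

/-- row EBH -/
theorem EBH (h1 : ST_TRE) (h2 : ST_NWT) (h3 : ST_TRO) : ST_EBH := by
  intro δ hδ
  obtain ⟨q, R, hR, hq, hq0, hq1, hqE⟩ := h3 δ hδ
  refine ⟨R, hR, ?_⟩
  intro n X E hS hL
  set f : Fin n → R3 → ℝ := fun k y => q (nr (y - X k) ^ 2) with hf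
  have hf0 : ∀ k y, R ≤ nr (y - X k) → f k y = 0 := by
    intro k y hy
    simp only [hf]
    exact hq0 _ (pow_le_pow_left₀ hR.le hy 2)
  have hfs : ∀ k, ContDiff ℝ (⊤ : ℕ∞) (f k) := by
    intro k
    have e : f k = fun y => q ((y 0 - X k 0) ^ 2 + (y 1 - X k 1) ^ 2 + (y 2 - X k 2) ^ 2) := by
      funext y
      simp only [hf]
      rw [nr_sq]
      simp only [Pi.sub_apply]
    rw [e]
    exact hq.comp (by fun_prop)
  have hfc : ∀ k, HasCompactSupport (f k) := by
    intro k
    refine HasCompactSupport.intro (isCompact_closedBall (X k) R) fun y hy => ?_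
    apply hf0
    rw [Metric.mem_closedBall, not_le, dist_eq_norm] at hy
    refine hy.le.trans ?_
    rw [pi_norm_le_iff_of_nonneg (nr_nn _)]
    intro i
    exact comp_le_nr (y - X k) i
  have hsup : ∀ k y, y ∈ tsupport (f k) → nr (y - X k) ≤ R := by
    intro k y hy
    have hcl : IsClosed {y : R3 | nr (y - X k) ≤ R} :=
      isClosed_le (nr_cont.comp (continuous_id.sub continuous_const)) continuous_const
    refine closure_minimal ?_ hcl hy
    intro w hw
    by_contra hc
    exact hw (hf0 k w (not_le.mp hc).le)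
  have hdis : ∀ i j y, y ∈ tsupport (f i) → y ∈ tsupport (f j) → i = j := by
    intro i j y hi hj
    by_contra hne
    have h5 := hS _ _ hne
    have h6 := nr_sub_le (X i) (X j) y
    have h7 := hsup i y hi
    have h8 := hsup j y hj
    linarith
  have hf1 : ∀ k, ∫ y, f k y ^ 2 = 1 := by
    intro k
    have h5 := integral_sub_right_eq_self (μ := volume) (fun y : R3 => q (nr y ^ 2) ^ 2) (X k)
    simp only [hf]
    rw [h5]
    exact hq1
  obtain ⟨ψ, hψ, hA, hpos, hkin, hpair, hone⟩ := h1 _ f hfs hfc hdis hf1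
  have hLo := hL ψ hψ hA
  unfold QM at hLo
  rw [hkin, hpair, hone n X (fun _ => (1 : ℝ)), ← mul_add, ← mul_sub, mul_comm E,
    mul_le_mul_iff_right₀ hpos] at hLo
  -- one electron and one nucleus
  have hNW : ∀ k (p : R3), R < nr (p - X k) →
      ∫ y, f k y ^ 2 / nr (y - p) = 1 / nr (p - X k) := by
    intro k p hp
    have h5 := h2 q R hq hR hq0 (X k) p hp
    have h6 := hf1 k
    simp only [hf] at h6 ⊢
    rw [h5, h6]
  set K : ℝ := ∑ i, ∫ y, pd i (fun y => q (nr y ^ 2)) y ^ 2 with hK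
  set A : ℝ := ∫ y, q (nr y ^ 2) ^ 2 / nr y with hAd
  have hkb : ∀ l, ∑ i, ∫ y, pd i (f l) y ^ 2 = K := by
    intro l
    rw [hK]
    refine Finset.sum_congr rfl fun i _ => ?_
    rw [← integral_sub_right_eq_self (μ := volume)
      (fun y : R3 => pd i (fun y => q (nr y ^ 2)) y ^ 2) (X l)]
    congr 1
    funext y
    simp only [hf]
    rw [pd_tr i (fun y => q (nr y ^ 2))]
  have hat : ∀ l j, ∫ y, f l y ^ 2 / nr (y - X j) = Gm X l j + if l = j then A else 0 := by
    intro l j
    unfold Gm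
    by_cases h5 : l = j
    · subst h5
      rw [if_pos rfl, if_pos rfl, zero_add]
      exact integral_sub_right_eq_self (μ := volume) (fun y : R3 => q (nr y ^ 2) ^ 2 / nr y) (X l)
    · rw [if_neg h5, if_neg h5, add_zero, nr_comm (X l)]
      apply hNW
      have h7 := hS j l (fun h => h5 h.symm)
      linarith
  have hpp : ∀ k l, k ≠ l → ∫ x, ∫ y, f k x ^ 2 * f l y ^ 2 / nr (x - y) = Gm X k l := by
    intro k l hkl
    have h5 : ∀ x, ∫ y, f k x ^ 2 * f l y ^ 2 / nr (x - y) = f k x ^ 2 / nr (x - X l) := by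
      intro x
      have e1 : ∀ y, f k x ^ 2 * f l y ^ 2 / nr (x - y) =
          f k x ^ 2 * (f l y ^ 2 / nr (y - x)) := by
        intro y
        rw [nr_comm x y, mul_div_assoc]
      simp only [e1]
      rw [integral_const_mul]
      by_cases h6 : R ≤ nr (x - X k)
      · rw [hf0 k x h6]
        simp
      · rw [not_le] at h6
        rw [hNW l x]
        · ring
        · have h7 := hS _ _ hkl
          have h8 := nr_sub_le (X k) (X l) x
          linarith
    simp only [h5]
    rw [hat k l, if_neg hkl, add_zero]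
  have hrep : (∑ k, ∑ l, if k < l then ∫ x, ∫ y, f k x ^ 2 * f l y ^ 2 / nr (x - y) else 0) =
      nucR X (fun _ => (1 : ℝ)) := by
    unfold nucR
    refine Finset.sum_congr rfl fun k _ => Finset.sum_congr rfl fun l _ => ?_
    by_cases h6 : k < l
    · rw [if_pos h6, if_pos h6, hpp k l h6.ne]
      unfold Gm
      rw [if_neg h6.ne, one_mul]
    · rw [if_neg h6, if_neg h6]
  have hatt : ∑ l, ∑ j, (1 : ℝ) * ∫ y, f l y ^ 2 / nr (y - X j) =
      2 * nucR X (fun _ => (1 : ℝ)) + n * A := by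
    rw [← nucR_eq]
    simp only [one_mul, hat, Finset.sum_add_distrib, Finset.sum_ite_eq, Finset.mem_univ, if_true]
    rw [Finset.sum_const, Finset.card_univ, Fintype.card_fin, nsmul_eq_mul]
  have hkin' : ∑ l, ∑ i, ∫ y, pd i (f l) y ^ 2 = n * K := by
    simp only [hkb]
    rw [Finset.sum_const, Finset.card_univ, Fintype.card_fin, nsmul_eq_mul]
  rw [hrep, hatt, hkin'] at hLo
  have hn : (n : ℝ) * (K - A) ≤ n * (-(1 / 4) + δ) :=
    mul_le_mul_of_nonneg_left hqE (Nat.cast_nonneg n)
  linarith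

end Pool.Agent.Helper22.HY
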